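import Pool.Agent.T9h57.QD.Spec

/-!
# `LIper`: uniqueness of expansions `∑ t^i p_i(log t)`
-/

set_option autoImplicit false

namespace Pool.Agent.T9h91.QD

open Finset Polynomial Filter Topology Pool.Agent.T9h57.QD

theorem eval_bound (q : ℝ[X]) (D : ℕ) (C : ℝ) (hC : 0 ≤ C) (hD : q.natDegree ≤ D)
    (hc : ∀ j, |q.coeff j| ≤ C) (x : ℝ) : |q.eval x| ≤ (D + 1) * C * (1 + |x|) ^ D := by
  rw [eval_eq_sum_range' (lt_of_le_of_lt hD (Nat.lt_succ_self D))]
  refine (abs_sum_le_sum_abs _ _).trans ?_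
  have h1 : ∀ j ∈ range (D + 1), |q.coeff j * x ^ j| ≤ C * (1 + |x|) ^ D := by
    intro j hj
    rw [abs_mul, abs_pow]
    have h2 : |x| ^ j ≤ (1 + |x|) ^ D := by
      calc |x| ^ j ≤ (1 + |x|) ^ j := pow_le_pow_left₀ (abs_nonneg _) (by linarith [abs_nonneg x]) _
        _ ≤ (1 + |x|) ^ D := pow_le_pow_right₀ (by linarith [abs_nonneg x])
            (Nat.lt_succ_iff.1 (mem_range.1 hj))
    exact mul_le_mul (hc j) h2 (by positivity) hC
  refine (sum_le_sum h1).trans ?_
  rw [sum_const, card_range, nsmul_eq_mul]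
  push_cast
  rw [mul_assoc]

theorem tends_zero (D : ℕ) (C : ℝ) :
    Tendsto (fun y : ℝ => 2 * Real.exp (-y) * (C * (1 + |(-y)|) ^ D)) atTop (𝓝 0) := by
  have h1 : Tendsto (fun y : ℝ => y ^ D * Real.exp (-y)) atTop (𝓝 0) :=
    Real.tendsto_pow_mul_exp_neg_atTop_nhds_zero D
  have h2 : Tendsto (fun y : ℝ => 2 * |C| * 2 ^ D * (y ^ D * Real.exp (-y))) atTop (𝓝 0) := by
    simpa using h1.const_mul (2 * |C| * 2 ^ D)
  refine squeeze_zero_norm' ?_ h2
  filter_upwards [eventually_ge_atTop (1 : ℝ)] with y hy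
  have hy0 : 0 ≤ y := by linarith
  rw [Real.norm_eq_abs, abs_mul, abs_mul, abs_mul, abs_pow, abs_neg, abs_of_nonneg hy0,
    abs_of_nonneg (by linarith : (0:ℝ) ≤ 1 + y), abs_of_nonneg (Real.exp_pos _).le,
    abs_of_nonneg (by norm_num : (0:ℝ) ≤ 2)]
  have h3 : (1 + y) ^ D ≤ 2 ^ D * y ^ D := by
    rw [← mul_pow]
    exact pow_le_pow_left₀ (by linarith) (by linarith) _
  calc 2 * Real.exp (-y) * (|C| * (1 + y) ^ D)
      ≤ 2 * Real.exp (-y) * (|C| * (2 ^ D * y ^ D)) := by
        refine mul_le_mul_of_nonneg_left ?_ (by positivity)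
        exact mul_le_mul_of_nonneg_left h3 (abs_nonneg _)
    _ = 2 * |C| * 2 ^ D * (y ^ D * Real.exp (-y)) := by ring

/-- uniqueness. -/
theorem uniq (q : ℕ → ℝ[X]) (D : ℕ) (C : ℝ) (hC : 0 ≤ C) (hD : ∀ i, (q i).natDegree ≤ D)
    (hc : ∀ i j, |(q i).coeff j| ≤ C)
    (h : ∀ t : ℝ, 0 < t → t < 1 → HasSum (fun i => t ^ i * (q i).eval (Real.log t)) 0) :
    ∀ i, q i = 0 := by
  intro i
  induction i using Nat.strong_induction_on with
  | _ i ih =>
    -- bound
    have hb : ∀ t : ℝ, 0 < t → t ≤ 1 / 2 → |(q i).eval (Real.log t)| ≤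
        2 * t * ((D + 1) * C * (1 + |Real.log t|) ^ D) := by
      intro t ht ht2
      set B := (D + 1) * C * (1 + |Real.log t|) ^ D with hB
      have hB0 : 0 ≤ B := by positivity
      have h1 := h t ht (by linarith)
      have h2 : HasSum (fun j => t ^ (j + (i + 1)) * (q (j + (i + 1))).eval (Real.log t))
          (0 - ∑ j ∈ range (i + 1), t ^ j * (q j).eval (Real.log t)) := by
        rw [hasSum_nat_add_iff (f := fun j => t ^ j * (q j).eval (Real.log t)) (i + 1)]
        simpa using h1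
      have h3 : ∑ j ∈ range (i + 1), t ^ j * (q j).eval (Real.log t) =
          t ^ i * (q i).eval (Real.log t) := by
        rw [sum_range_succ, sum_eq_zero, zero_add]
        intro j hj
        rw [ih j (mem_range.1 hj)]
        simp
      rw [h3, zero_sub] at h2
      have h4 : HasSum (fun j : ℕ => t ^ (i + 1) * B * t ^ j) (t ^ (i + 1) * B * (1 - t)⁻¹) :=
        (hasSum_geometric_of_lt_one ht.le (by linarith)).mul_left _
      have h5 : |-(t ^ i * (q i).eval (Real.log t))| ≤ t ^ (i + 1) * B * (1 - t)⁻¹ := by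
        have := tsum_of_norm_bounded h4 (f := fun j => t ^ (j + (i + 1)) *
          (q (j + (i + 1))).eval (Real.log t)) (fun j => by
            rw [Real.norm_eq_abs, abs_mul, abs_of_nonneg (by positivity : (0:ℝ) ≤ t ^ (j + (i + 1)))]
            calc t ^ (j + (i + 1)) * |(q (j + (i + 1))).eval (Real.log t)|
                ≤ t ^ (j + (i + 1)) * B := by
                  refine mul_le_mul_of_nonneg_left ?_ (by positivity)
                  exact eval_bound _ D C hC (hD _) (hc _) _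
              _ = t ^ (i + 1) * B * t ^ j := by rw [pow_add]; ring)
        rw [h2.tsum_eq] at this
        exact this
      rw [abs_neg, abs_mul, abs_of_nonneg (by positivity : (0:ℝ) ≤ t ^ i)] at h5
      have h6 : (1 - t)⁻¹ ≤ 2 := by
        rw [inv_le_comm₀ (by linarith) (by norm_num)]
        linarith
      have h7 : t ^ i * |(q i).eval (Real.log t)| ≤ t ^ i * (2 * t * B) := by
        calc t ^ i * |(q i).eval (Real.log t)| ≤ t ^ (i + 1) * B * (1 - t)⁻¹ := h5
          _ ≤ t ^ (i + 1) * B * 2 := mul_le_mul_of_nonneg_left h6 (by positivity)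
          _ = t ^ i * (2 * t * B) := by rw [pow_succ]; ring
      exact le_of_mul_le_mul_left h7 (by positivity)
    -- limit
    have hl : Tendsto (fun y : ℝ => ((q i).comp (-X)).eval y) atTop (𝓝 0) := by
      refine squeeze_zero_norm' ?_ (tends_zero D ((D + 1) * C))
      filter_upwards [eventually_ge_atTop (Real.log 2)] with y hy
      have h1 : Real.exp (-y) ≤ 1 / 2 := by
        rw [Real.exp_neg, one_div]
        refine inv_anti₀ (by norm_num) ?_
        calc (2 : ℝ) = Real.exp (Real.log 2) := (Real.exp_log (by norm_num)).symm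
          _ ≤ Real.exp y := Real.exp_le_exp.2 hy
      have h2 := hb (Real.exp (-y)) (Real.exp_pos _) h1
      rw [Real.log_exp] at h2
      rw [Real.norm_eq_abs, eval_comp]
      simpa using h2
    have hz : (q i).comp (-X) = 0 := by
      have := (Polynomial.tendsto_nhds_iff _).1 hl
      exact leadingCoeff_eq_zero.1 this.1
    have h8 : ((q i).comp (-X)).comp (-X) = q i := by
      rw [comp_assoc]
      simp
    rw [← h8, hz, zero_comp]

theorem summable_Lir (s : ℕ) (x : ℝ) (hx : |x| < 1) :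
    Summable (fun k : ℕ => x ^ (k + 1) / ((k : ℝ) + 1) ^ s) := by
  refine Summable.of_norm_bounded (g := fun k : ℕ => |x| ^ k) (summable_geometric_of_lt_one (abs_nonneg _) hx) ?_
  intro k
  rw [Real.norm_eq_abs, abs_div, abs_pow, abs_pow]
  have h1 : (1 : ℝ) ≤ |(k : ℝ) + 1| ^ s := by
    apply one_le_pow₀
    rw [abs_of_nonneg (by positivity)]
    linarith [(Nat.cast_nonneg k : (0:ℝ) ≤ k)]
  rw [div_le_iff₀ (by linarith)]
  have h2 : |x| ^ (k + 1) ≤ |x| ^ k := pow_le_pow_of_le_one (abs_nonneg _) hx.le (by omega)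
  nlinarith [pow_nonneg (abs_nonneg x) k]

/-- `2^k B_k / k!`. -/
noncomputable def bt (k : ℕ) : ℝ := 2 ^ k * (bernoulli k : ℝ) / (k.factorial : ℝ)

section main

variable {m : ℕ} (e : ℕ) (a₀ a₁ : Fin (m + 1) → ℝ) (b : ℕ → Fin (m + 1) → ℝ)

/-- the polynomial `p_(i+1)` without the sign. -/
noncomputable def Tp (i : ℕ) : ℝ[X] :=
  ∑ n ∈ (Icc 3 e).filter Odd, ∑ k : Fin (m + 1), ∑ j ∈ range n,
    monomial ((k : ℕ) + j) (b n k * bt j * (((i : ℝ) + 1)⁻¹) ^ (n - j)) -
  ∑ k : Fin (m + 1), monomial (k : ℕ) (a₁ k * ((i : ℝ) + 1)⁻¹)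

/-- the polynomials `p_i`. -/
noncomputable def qp : ℕ → ℝ[X]
  | 0 => ∑ k : Fin (m + 1), monomial (k : ℕ) (a₀ k)
  | (i + 1) => C ((-1) ^ (i + 1)) * Tp e a₁ b i

theorem Tp_deg (i : ℕ) : (Tp e a₁ b i).natDegree ≤ m + e := by
  unfold Tp
  refine (natDegree_sub_le _ _).trans (max_le ?_ ?_)
  · refine natDegree_sum_le_of_forall_le _ _ fun n hn => ?_
    refine natDegree_sum_le_of_forall_le _ _ fun k _ => ?_
    refine natDegree_sum_le_of_forall_le _ _ fun j hj => ?_
    refine (natDegree_monomial_le _).trans ?_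
    have h1 := (mem_Icc.1 (mem_filter.1 hn).1).2
    have h2 := mem_range.1 hj
    have h3 := k.2
    omega
  · refine natDegree_sum_le_of_forall_le _ _ fun k _ => ?_
    refine (natDegree_monomial_le _).trans ?_
    have h3 := k.2
    omega

/-- bound for the coefficients. -/
noncomputable def Bd : ℝ :=
  ∑ n ∈ (Icc 3 e).filter Odd, ∑ k : Fin (m + 1), ∑ j ∈ range n, |b n k * bt j| +
    ∑ k : Fin (m + 1), |a₁ k| + ∑ k : Fin (m + 1), |a₀ k|

theorem inv_le_one' (i : ℕ) : 0 ≤ ((i : ℝ) + 1)⁻¹ ∧ ((i : ℝ) + 1)⁻¹ ≤ 1 := by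
  constructor
  · positivity
  · apply inv_le_one_of_one_le₀
    linarith [(Nat.cast_nonneg i : (0:ℝ) ≤ i)]

theorem Tp_coeff (i r : ℕ) : |(Tp e a₁ b i).coeff r| ≤ Bd e a₀ a₁ b := by
  obtain ⟨h0, h1⟩ := inv_le_one' i
  unfold Tp Bd
  rw [coeff_sub, finsetSum_coeff]
  simp_rw [finsetSum_coeff]
  have hA : |∑ n ∈ (Icc 3 e).filter Odd, ∑ k : Fin (m + 1), ∑ j ∈ range n,
      (monomial ((k : ℕ) + j) (b n k * bt j * (((i : ℝ) + 1)⁻¹) ^ (n - j))).coeff r| ≤
      ∑ n ∈ (Icc 3 e).filter Odd, ∑ k : Fin (m + 1), ∑ j ∈ range n, |b n k * bt j| := by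
    refine (abs_sum_le_sum_abs _ _).trans (sum_le_sum fun n _ => ?_)
    refine (abs_sum_le_sum_abs _ _).trans (sum_le_sum fun k _ => ?_)
    refine (abs_sum_le_sum_abs _ _).trans (sum_le_sum fun j _ => ?_)
    rw [coeff_monomial]
    split_ifs
    · rw [abs_mul]
      refine mul_le_of_le_one_right (abs_nonneg _) ?_
      rw [abs_of_nonneg (pow_nonneg h0 _)]
      exact pow_le_one₀ h0 h1
    · rw [abs_zero]
      exact abs_nonneg _
  have hB : |∑ k : Fin (m + 1), (monomial (k : ℕ) (a₁ k * ((i : ℝ) + 1)⁻¹)).coeff r| ≤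
      ∑ k : Fin (m + 1), |a₁ k| := by
    refine (abs_sum_le_sum_abs _ _).trans (sum_le_sum fun k _ => ?_)
    rw [coeff_monomial]
    split_ifs
    · rw [abs_mul]
      refine mul_le_of_le_one_right (abs_nonneg _) ?_
      rw [abs_of_nonneg h0]
      exact h1
    · simp
  have hC : (0 : ℝ) ≤ ∑ k : Fin (m + 1), |a₀ k| := sum_nonneg fun _ _ => abs_nonneg _
  refine (abs_sub _ _).trans ?_
  linarith

theorem Bd_nonneg : 0 ≤ Bd e a₀ a₁ b := by
  unfold Bd
  positivity

theorem qp_coeff (i r : ℕ) : |(qp e a₀ a₁ b i).coeff r| ≤ Bd e a₀ a₁ b := by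
  cases i with
  | zero =>
    unfold qp Bd
    simp_rw [finsetSum_coeff]
    have hB : |∑ k : Fin (m + 1), (monomial (k : ℕ) (a₀ k)).coeff r| ≤
        ∑ k : Fin (m + 1), |a₀ k| := by
      refine (abs_sum_le_sum_abs _ _).trans (sum_le_sum fun k _ => ?_)
      rw [coeff_monomial]
      split_ifs <;> simp
    have h1 : (0 : ℝ) ≤ ∑ n ∈ (Icc 3 e).filter Odd, ∑ k : Fin (m + 1), ∑ j ∈ range n,
      |b n k * bt j| := by positivity
    have h2 : (0 : ℝ) ≤ ∑ k : Fin (m + 1), |a₁ k| := by positivity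
    linarith
  | succ i =>
    unfold qp
    rw [coeff_C_mul, abs_mul, abs_pow, abs_neg, abs_one, one_pow, one_mul]
    exact Tp_coeff e a₀ a₁ b i r

theorem qp_deg (i : ℕ) : (qp e a₀ a₁ b i).natDegree ≤ m + e := by
  cases i with
  | zero =>
    unfold qp
    refine natDegree_sum_le_of_forall_le _ _ fun k _ => ?_
    refine (natDegree_monomial_le _).trans ?_
    have h3 := k.2
    omega
  | succ i =>
    unfold qp
    exact (natDegree_C_mul_le _ _).trans (Tp_deg e a₁ b i)

theorem hasSum_qp (t : ℝ) (ht : 0 < t) (ht1 : t < 1)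
    (h : ∑ k, a₀ k * Real.log t ^ (k : ℕ) + ∑ k, a₁ k * Real.log t ^ (k : ℕ) * Real.log (1 + t) +
        ∑ n ∈ (Icc 3 e).filter Odd, ∑ k, b n k * Real.log t ^ (k : ℕ) * Lsv n (-t) = 0) :
    HasSum (fun i => t ^ i * (qp e a₀ a₁ b i).eval (Real.log t)) 0 := by
  have habs : |(-t)| < 1 := by rw [abs_neg, abs_of_pos ht]; exact ht1
  -- the two basic series
  have hS : ∀ s : ℕ, HasSum (fun i : ℕ => (-t) ^ (i + 1) * (((i : ℝ) + 1)⁻¹) ^ s) (Lir s (-t)) := by
    intro s
    have h1 : HasSum (fun k : ℕ => (-t) ^ (k + 1) / ((k : ℝ) + 1) ^ s) (Lir s (-t)) :=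
      (summable_Lir s (-t) habs).hasSum
    simpa [div_eq_mul_inv, inv_pow] using h1
  have hL : HasSum (fun i : ℕ => (-t) ^ (i + 1) * ((i : ℝ) + 1)⁻¹) (-Real.log (1 + t)) := by
    have h1 := Real.hasSum_pow_div_log_of_abs_lt_one habs
    rw [sub_neg_eq_add] at h1
    simpa [div_eq_mul_inv] using h1
  have hT : HasSum (fun i : ℕ => t ^ (i + 1) * (qp e a₀ a₁ b (i + 1)).eval (Real.log t))
      (∑ n ∈ (Icc 3 e).filter Odd, ∑ k : Fin (m + 1), ∑ j ∈ range n,
        (b n k * bt j * Real.log t ^ ((k : ℕ) + j)) * Lir (n - j) (-t) -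
        ∑ k : Fin (m + 1), (a₁ k * Real.log t ^ (k : ℕ)) * (-Real.log (1 + t))) := by
    have h1 : HasSum (fun i : ℕ => ∑ n ∈ (Icc 3 e).filter Odd, ∑ k : Fin (m + 1), ∑ j ∈ range n,
        (b n k * bt j * Real.log t ^ ((k : ℕ) + j)) * ((-t) ^ (i + 1) * (((i : ℝ) + 1)⁻¹) ^ (n - j)) -
        ∑ k : Fin (m + 1), (a₁ k * Real.log t ^ (k : ℕ)) * ((-t) ^ (i + 1) * ((i : ℝ) + 1)⁻¹))
        (∑ n ∈ (Icc 3 e).filter Odd, ∑ k : Fin (m + 1), ∑ j ∈ range n,
        (b n k * bt j * Real.log t ^ ((k : ℕ) + j)) * Lir (n - j) (-t) -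
        ∑ k : Fin (m + 1), (a₁ k * Real.log t ^ (k : ℕ)) * (-Real.log (1 + t))) :=
      (hasSum_sum fun n _ => hasSum_sum fun k _ => hasSum_sum fun j _ => (hS (n - j)).mul_left _).sub
        (hasSum_sum fun k _ => hL.mul_left _)
    convert h1 using 2 with i
    unfold qp Tp
    rw [eval_mul, eval_C, eval_sub]
    simp_rw [eval_finsetSum, eval_monomial]
    have hp : (-t) ^ (i + 1) = (-1) ^ (i + 1) * t ^ (i + 1) := by rw [neg_pow]
    rw [hp, mul_sub, mul_sub]
    congr 1
    · simp_rw [mul_sum]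
      refine sum_congr rfl fun n _ => sum_congr rfl fun k _ => sum_congr rfl fun j _ => ?_
      ring
    · simp_rw [mul_sum]
      refine sum_congr rfl fun k _ => ?_
      ring
  rw [← hasSum_nat_add_iff' 1]
  rw [sum_range_one, zero_sub]
  refine (congrArg (HasSum _) ?_).mpr hT
  rw [neg_eq_iff_add_eq_zero, ← h]
  have h0 : t ^ 0 * (qp e a₀ a₁ b 0).eval (Real.log t) = ∑ k, a₀ k * Real.log t ^ (k : ℕ) := by
    unfold qp
    simp_rw [eval_finsetSum, eval_monomial]
    simp
  rw [h0]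
  have h2 : ∑ k : Fin (m + 1), (a₁ k * Real.log t ^ (k : ℕ)) * (-Real.log (1 + t)) =
      - ∑ k, a₁ k * Real.log t ^ (k : ℕ) * Real.log (1 + t) := by
    rw [← sum_neg_distrib]
    exact sum_congr rfl fun k _ => by ring
  have h3 : ∑ n ∈ (Icc 3 e).filter Odd, ∑ k, b n k * Real.log t ^ (k : ℕ) * Lsv n (-t) =
      ∑ n ∈ (Icc 3 e).filter Odd, ∑ k : Fin (m + 1), ∑ j ∈ range n,
        (b n k * bt j * Real.log t ^ ((k : ℕ) + j)) * Lir (n - j) (-t) := by
    refine sum_congr rfl fun n _ => sum_congr rfl fun k _ => ?_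
    unfold Lsv
    rw [mul_sum]
    refine sum_congr rfl fun j _ => ?_
    rw [abs_neg, abs_of_pos ht, bt, pow_add]
    ring
  rw [h2, h3]
  ring

/-- the coefficient polynomials in `1/(i+1)`. -/
noncomputable def Gp (r : ℕ) : ℝ[X] :=
  ∑ n ∈ (Icc 3 e).filter Odd, ∑ k : Fin (m + 1), ∑ j ∈ range n,
    (if (k : ℕ) + j = r then monomial (n - j) (b n k * bt j) else 0) -
  ∑ k : Fin (m + 1), (if (k : ℕ) = r then monomial 1 (a₁ k) else 0)

theorem Gp_eval (i r : ℕ) : (Gp e a₁ b r).eval (((i : ℝ) + 1)⁻¹) = (Tp e a₁ b i).coeff r := by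
  unfold Gp Tp
  rw [eval_sub, coeff_sub]
  simp_rw [eval_finsetSum, finsetSum_coeff, coeff_monomial]
  congr 1
  · refine sum_congr rfl fun n _ => sum_congr rfl fun k _ => sum_congr rfl fun j _ => ?_
    split_ifs
    · rw [eval_monomial]
    · simp
  · refine sum_congr rfl fun k _ => ?_
    split_ifs
    · rw [eval_monomial, pow_one]
    · simp

end main

/-- `LIper`. -/
theorem liper : LIper := by
  intro m e a₀ a₁ b h
  have hq := uniq (qp e a₀ a₁ b) (m + e) (Bd e a₀ a₁ b) (Bd_nonneg e a₀ a₁ b) (qp_deg e a₀ a₁ b)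
    (qp_coeff e a₀ a₁ b) (fun t ht ht1 => hasSum_qp e a₀ a₁ b t ht ht1 (h t ht ht1))
  have hT : ∀ i, Tp e a₁ b i = 0 := by
    intro i
    have h1 := hq (i + 1)
    unfold qp at h1
    rcases mul_eq_zero.1 h1 with h2 | h2
    · exfalso
      rw [C_eq_zero] at h2
      exact (pow_ne_zero _ (by norm_num : (-1 : ℝ) ≠ 0)) h2
    · exact h2
  have hG : ∀ r, Gp e a₁ b r = 0 := by
    intro r
    refine Polynomial.eq_zero_of_infinite_isRoot _ ?_
    refine Set.Infinite.mono (s := Set.range fun i : ℕ => ((i : ℝ) + 1)⁻¹) ?_ ?_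
    · rintro _ ⟨i, rfl⟩
      show (Gp e a₁ b r).IsRoot _
      rw [IsRoot, Gp_eval, hT i, coeff_zero]
    · refine Set.infinite_range_of_injective ?_
      intro i j hij
      have := inv_injective hij
      exact_mod_cast add_right_cancel this
  -- coefficient of `Y^n₀`
  have hcoef : ∀ r n₀ : ℕ, ∑ n ∈ (Icc 3 e).filter Odd, ∑ k : Fin (m + 1), ∑ j ∈ range n,
      (if (k : ℕ) + j = r then (if n - j = n₀ then b n k * bt j else 0) else 0) =
      ∑ k : Fin (m + 1), (if (k : ℕ) = r then (if 1 = n₀ then a₁ k else 0) else 0) := by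
    intro r n₀
    have h1 := congrArg (fun p : ℝ[X] => p.coeff n₀) (hG r)
    simp only [Gp, coeff_sub, finsetSum_coeff, coeff_zero] at h1
    rw [sub_eq_zero] at h1
    convert h1 using 1
    · refine sum_congr rfl fun n _ => sum_congr rfl fun k _ => sum_congr rfl fun j _ => ?_
      split_ifs with h2 h3
      · rw [coeff_monomial, if_pos h3]
      · rw [coeff_monomial, if_neg h3]
      · simp
    · refine sum_congr rfl fun k _ => ?_
      split_ifs with h2 h3
      · rw [coeff_monomial, if_pos h3]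
      · rw [coeff_monomial, if_neg h3]
      · simp
  have hbt0 : bt 0 = 1 := by simp [bt]
  have hb : ∀ N n : ℕ, e < n + N → Odd n → 3 ≤ n → n ≤ e → b n = 0 := by
    intro N
    induction N with
    | zero => intro n h1 _ _ h2; omega
    | succ N ih =>
      intro n₀ h1 hodd h3 hle
      funext k₀
      have h4 := hcoef (k₀ : ℕ) n₀
      have h5 : ∑ k : Fin (m + 1), (if (k : ℕ) = (k₀ : ℕ) then (if 1 = n₀ then a₁ k else 0) else 0)
          = 0 := by
        refine sum_eq_zero fun k _ => ?_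
        rw [if_neg (show ¬ 1 = n₀ by omega)]
        simp
      rw [h5] at h4
      rw [sum_eq_single n₀] at h4
      · rw [sum_eq_single k₀] at h4
        · rw [sum_eq_single 0] at h4
          · simpa [hbt0] using h4
          · intro j hj hj0
            rw [if_neg (by omega)]
          · intro hn
            exact absurd (mem_range.2 (by omega)) hn
        · intro k _ hk
          refine sum_eq_zero fun j hj => ?_
          have hj2 := mem_range.1 hj
          by_cases h6 : (k : ℕ) + j = k₀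
          · rw [if_pos h6]
            by_cases h7 : j = 0
            · exfalso
              apply hk
              apply Fin.ext
              omega
            · rw [if_neg (by omega)]
          · rw [if_neg h6]
        · intro hn
          exact absurd (mem_univ _) hn
      · intro n hn hne
        rw [mem_filter, mem_Icc] at hn
        rcases lt_or_gt_of_ne hne with h6 | h6
        · refine sum_eq_zero fun k _ => sum_eq_zero fun j hj => ?_
          have hj2 := mem_range.1 hj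
          split_ifs with h7 h8
          · omega
          · rfl
          · rfl
        · have h7 := ih n (by omega) hn.2 hn.1.1 hn.1.2
          refine sum_eq_zero fun k _ => sum_eq_zero fun j hj => ?_
          rw [h7]
          simp
      · intro hn
        exact absurd (mem_filter.2 ⟨mem_Icc.2 ⟨h3, hle⟩, hodd⟩) hn
  have hb' : ∀ n, Odd n → 3 ≤ n → n ≤ e → b n = 0 := fun n h1 h2 h3 =>
    hb (e + 1) n (by omega) h1 h2 h3
  refine ⟨?_, ?_, hb'⟩
  · funext k₀
    have h1 := congrArg (fun p : ℝ[X] => p.coeff (k₀ : ℕ)) (hq 0)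
    simp only [qp, finsetSum_coeff, coeff_zero, coeff_monomial] at h1
    rw [sum_eq_single k₀] at h1
    · simpa using h1
    · intro k _ hk
      rw [if_neg]
      intro h2
      exact hk (Fin.ext h2)
    · intro hn
      exact absurd (mem_univ _) hn
  · funext k₀
    have h1 := hcoef (k₀ : ℕ) 1
    have h2 : ∑ n ∈ (Icc 3 e).filter Odd, ∑ k : Fin (m + 1), ∑ j ∈ range n,
      (if (k : ℕ) + j = (k₀ : ℕ) then (if n - j = 1 then b n k * bt j else 0) else 0) = 0 := by
      refine sum_eq_zero fun n hn => sum_eq_zero fun k _ => sum_eq_zero fun j hj => ?_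
      rw [mem_filter, mem_Icc] at hn
      rw [hb' n hn.2 hn.1.1 hn.1.2]
      simp
    rw [h2, sum_eq_single k₀] at h1
    · simpa using h1.symm
    · intro k _ hk
      rw [if_neg]
      intro h2
      exact hk (Fin.ext h2)
    · intro hn
      exact absurd (mem_univ _) hn

end Pool.Agent.T9h91.QD
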